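import Pool.Agent.FBU.Cmp
import Pool.Agent.FBN.FExt
import Pool.Agent.FBN.Asc

/-!
# FBU/Cls: a closed form which is, on every fibre, cohomologous to a Kaehler form

`exists_extension` extends the function `φ` of the fibre to `M`; `ascend` glues.
-/

set_option autoImplicit false

noncomputable section

open scoped Manifold ContDiff Classical

namespace Pool.Agent.FBU

open Pool.Agent.FBR

universe u

/-- the tangent space of the fibre -/
theorem emb_onto {M B N : CM.{u}} {π : M.X → B.X} {m : ℕ} (hπ : Fibn M B π m) {i : N.X → M.X}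
    (hi : Emb N M i) {b : B.X} (hc : ∀ y, π (i y) = b) (hm : dim M = dim B + dim N) (y : N.X) (v : M.E)
    (hv : dmap M.E B.E π (i y) v = 0) : ∃ w, dmap N.E M.E i y w = v := by
  let p : M.E →ₗ[ℂ] B.E := (mfderiv 𝓘(ℂ, M.E) 𝓘(ℂ, B.E) π (i y) : M.E →L[ℂ] B.E).toLinearMap
  let q : N.E →ₗ[ℂ] M.E := (mfderiv 𝓘(ℂ, N.E) 𝓘(ℂ, M.E) i y : N.E →L[ℂ] M.E).toLinearMap
  have hq : Function.Injective q := hi.imm y
  have hp : Function.Surjective p := hπ.subm (i y)
  have h0 : (mfderiv 𝓘(ℂ, M.E) 𝓘(ℂ, B.E) π (i y)).comp (mfderiv 𝓘(ℂ, N.E) 𝓘(ℂ, M.E) i y) = 0 := by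
    have h1 : MDifferentiableAt 𝓘(ℂ, N.E) 𝓘(ℂ, M.E) i y := (hi.hol y).mdifferentiableAt (by simp)
    have h2 : MDifferentiableAt 𝓘(ℂ, M.E) 𝓘(ℂ, B.E) π (i y) := (hπ.hol (i y)).mdifferentiableAt (by simp)
    have h3 := mfderiv_comp y h2 h1
    have h4 : π ∘ i = fun _ => b := funext hc
    rw [← h3, h4]
    exact mfderiv_const
  have hle : LinearMap.range q ≤ LinearMap.ker p := by
    rintro _ ⟨w, rfl⟩
    exact DFunLike.congr_fun h0 w
  have hm' : Module.finrank ℂ M.E = Module.finrank ℂ B.E + Module.finrank ℂ N.E := hm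
  have h1 : Module.finrank ℂ (LinearMap.range q) = Module.finrank ℂ N.E :=
    LinearMap.finrank_range_of_inj hq
  have h2 : Module.finrank ℂ (LinearMap.ker p) = Module.finrank ℂ N.E := by
    have h3 := LinearMap.finrank_range_add_finrank_ker p
    have h5 : Module.finrank ℂ (LinearMap.range p) = Module.finrank ℂ B.E := by
      rw [LinearMap.range_eq_top.2 hp, finrank_top]
    omega
  have heq : LinearMap.range q = LinearMap.ker p :=
    Submodule.eq_of_le_of_finrank_le hle (by rw [h1, h2])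
  have hvk : v ∈ LinearMap.ker p := by
    rw [dmap_eq hπ.hol] at hv
    exact hv
  rw [← heq] at hvk
  obtain ⟨w, hw⟩ := hvk
  exact ⟨w, by rw [dmap_eq hi.hol]; exact hw⟩

theorem cls_fibre {M B : CM.{u}} {π : M.X → B.X} {m : ℕ} (hπ : Fibn M B π m) (θ : Form M.E M.X) (b : B.X)
    (h : ∃ (N : CM.{u}) (i : N.X → M.X) (φ : N.X → ℝ), FibreMap M B π b N i ∧ Smooth N φ ∧
      ∀ (y : N.X) (v : N.E), v ≠ 0 → 0 < herm (θ.val (i y)) (dif N M i y v) + levi N φ y v) :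
    ∃ φ : M.X → ℝ, SmF M.E φ ∧ ∀ x, π x = b → VPos B.E π (fun x => θ.val x + ddcF M.E φ x) x := by
  obtain ⟨N, i, φ, ⟨hi, hr, hd⟩, hφ, hp⟩ := h
  have hc : ∀ y, π (i y) = b := by
    intro y
    have h : i y ∈ π ⁻¹' {b} := by
      rw [← hr]
      exact ⟨y, rfl⟩
    exact h
  have hm : Module.finrank ℂ N.E = m := by
    have h1 := hπ.dim
    have h2 : dim N = m := by omega
    exact h2
  obtain ⟨Φ, hΦ, hΦi⟩ := FBN.exists_extension M B N π m (cmp_fibn hπ) b i hi.hol hi.imm hi.inj hr hm φ hφ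
  refine ⟨Φ, hΦ, ?_⟩
  intro z hz v hv h0
  have hmem : z ∈ Set.range i := by
    rw [hr]
    exact hz
  obtain ⟨y, rfl⟩ := hmem
  obtain ⟨w, rfl⟩ := emb_onto hπ hi hc hd y v h0
  have hw : w ≠ 0 := by
    rintro rfl
    exact hv (map_zero _)
  have h1 := hp y w hw
  have h2 : φ = Φ ∘ i := by
    funext y
    exact (hΦi y).symm
  have h3 := ddcF_holo hΦ hi.hol y
  rw [levi_eq N hφ, h2, h3, dif_dmap hi.hol] at h1
  have h4 : (0 : ℝ) < θ.val (i y) (dmap N.E M.E i y w) (Complex.I • dmap N.E M.E i y w) +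
      ddcF M.E Φ (i y) (dmap N.E M.E i y w) (dmap N.E M.E i y (Complex.I • w)) := h1
  rw [dmap_I hi.hol] at h4
  exact h4

theorem cls_vpos {M B : CM.{u}} {π : M.X → B.X} {m : ℕ} (hπ : Fibn M B π m) (θ : Form M.E M.X)
    (h : FibKaehler M B π θ) : ∃ c : Form M.E M.X, ∀ x, VPos B.E π c.val x := by
  obtain ⟨φ, hφ, hp⟩ := FBN.ascend (cmp_fibn hπ) θ fun b => cls_fibre hπ θ b (h b)
  obtain ⟨e, he⟩ := exists_ddcF hφ
  obtain ⟨c, hc⟩ := exists_comb θ e 1 1
  refine ⟨c, fun x v hv h0 => ?_⟩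
  have := hp x v hv h0
  rw [hc, he]
  simpa using this

end Pool.Agent.FBU
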