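import Pool.Agent.FBU.Defs
import Pool.Agent.FBN.Tow
import Pool.Agent.FBR.Ops
import Pool.Agent.FBN.Vol
import Pool.Agent.FBS.Up

/-!
# FBU/Cmp: comparison of the definitions with those of FBR and FBN; fibres
-/

set_option autoImplicit false

noncomputable section

open scoped Manifold ContDiff Topology

namespace Pool.Agent.FBU

open Pool.Agent.FBR

universe u

theorem dif_dmap {M N : CM.{u}} {f : M.X → N.X} (hf : Holo M N f) (x : M.X) (v : M.E) :
    dif M N f x v = dmap M.E N.E f x v := (dmap_eq hf x v).symm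

theorem cmp_fibn {M B : CM.{u}} {π : M.X → B.X} {m : ℕ} (h : Fibn M B π m) :
    FBN.Fibn M.E B.E π m := ⟨h.hol, h.subm, h.dim, h.conn⟩

theorem cmp_cover {M' M : CM.{u}} {p : M'.X → M.X} (h : Cover M' M p) :
    FBR.Cover M'.E M.E p := ⟨h.hol, h.bij, h.surj⟩

theorem cmp_torus {M B : CM.{u}} {π : M.X → B.X} {k : ℕ} (h : TorusFib M B π k) :
    FBR.TorusFib M.E B.E π k :=
  ⟨h.1, fun b₀ => (h.2 b₀).map fun C =>
    { V := C.V, isOpen := C.isOpen, sub := C.sub, mem := C.mem, lam := C.lam, lam_hol := C.lat.hol,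
      indep := C.lat.indep, Φ := C.Φ, hol := C.bihol.hol, bij := C.bihol.bij, proj := C.proj,
      surj := C.surj, ker := C.ker }⟩

theorem sec_eq {E : Type u} [NormedAddCommGroup E] [NormedSpace ℂ E] {f : E → ℝ} {y : E}
    (hf : ContDiffAt ℝ ∞ f y) (v : E) : sec f y v = fderiv ℝ (fderiv ℝ f) y v v := by
  have hl : ∀ t : ℝ, HasDerivAt (fun t : ℝ => y + (t : ℂ) • v) v t := by
    intro t
    have h1 : HasDerivAt (fun t : ℝ => (t : ℂ) • v) ((1 : ℂ) • v) t :=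
      (Complex.ofRealCLM.hasDerivAt (x := t)).smul_const v
    rw [one_smul] at h1
    exact h1.const_add y
  have h0 : y + ((0 : ℝ) : ℂ) • v = y := by simp
  have hcont : Filter.Tendsto (fun t : ℝ => y + (t : ℂ) • v) (𝓝 0) (𝓝 y) := by
    have := (hl 0).continuousAt.tendsto
    rwa [h0] at this
  have h2 : ∀ᶠ z in 𝓝 y, DifferentiableAt ℝ f z := by
    have h := (hf.of_le (WithTop.coe_le_coe.2 (le_top : (2 : ℕ∞) ≤ ⊤)) : ContDiffAt ℝ 2 f y).eventually
      (by simp)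
    filter_upwards [h] with x hx
    exact hx.differentiableAt (by norm_num)
  have h3 : (deriv fun t : ℝ => f (y + (t : ℂ) • v)) =ᶠ[𝓝 0] fun t : ℝ =>
      fderiv ℝ f (y + (t : ℂ) • v) v := by
    filter_upwards [hcont.eventually h2] with t ht
    exact (ht.hasFDerivAt.comp_hasDerivAt t (hl t)).deriv
  unfold sec
  rw [h3.deriv_eq]
  have h4 : DifferentiableAt ℝ (fderiv ℝ f) y := by
    have h : ContDiffAt ℝ 1 (fderiv ℝ f) y := hf.fderiv_right
      (WithTop.coe_le_coe.2 (le_top : (2 : ℕ∞) ≤ ⊤))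
    exact h.differentiableAt (by norm_num)
  have h5 : HasFDerivAt (fderiv ℝ f) (fderiv ℝ (fderiv ℝ f) y) (y + ((0 : ℝ) : ℂ) • v) := by
    rw [h0]
    exact h4.hasFDerivAt
  have h6 := (h5.comp_hasDerivAt (0 : ℝ) (hl 0)).clm_apply (hasDerivAt_const (0 : ℝ) v)
  have h7 := h6.deriv
  simpa using h7

theorem levi_eq (N : CM.{u}) {φ : N.X → ℝ} (hφ : Smooth N φ) (x : N.X) (v : N.E) :
    levi N φ x v = ddcF N.E φ x v (Complex.I • v) := by
  unfold ddcF
  rw [ddc_self]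
  unfold levi hess
  rw [sec_eq (hφ x), sec_eq (hφ x)]
  ring

theorem cmp_kProp {N : CM.{u}} (h : KProp N) : FBN.KProp N := by
  intro θ h1 h2
  obtain ⟨φ, hφ, hp⟩ := h θ h1 h2
  refine ⟨φ, hφ, fun y v hv => ?_⟩
  have := hp y v hv
  rw [levi_eq N hφ] at this
  exact this

theorem cmp_kFib {M B : CM.{u}} {π : M.X → B.X} {m : ℕ} (hπ : Fibn M B π m) {b : B.X} {N : CM.{u}}
    (h : IsFibre M B π b N) (hK : KProp N) : FBN.KFib M B π m b := by
  obtain ⟨i, ⟨hi, hr, hd⟩⟩ := h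
  refine ⟨N, i, hi.hol, hi.imm, hi.inj, hr, ?_, cmp_kProp hK⟩
  have h1 := hπ.dim
  have h2 : dim N = m := by omega
  exact h2

/-- `c + f^* β` -/
theorem thick_form {Z M : CM.{u}} {f : Z.X → M.X} {D : Z.X → Set Z.E} {β : Form M.E M.X} (hβ : β.Semi)
    (h : Thick Z M f D {x | β.PosAt x}) :
    ∃ e : Form Z.E Z.X, e.Semi ∧ ∃ z, ∀ v ∈ D z, v ≠ 0 → 0 < e.val z v (Complex.I • v) := by
  obtain ⟨hf, c, hc, z0, hz0, hz0'⟩ := h
  have hz0p : β.PosAt (f z0) := hz0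
  obtain ⟨γ, hγ⟩ := exists_comap β hf
  have hγv : ∀ z v, γ.val z v (Complex.I • v) =
      β.val (f z) (dmap Z.E M.E f z v) (Complex.I • dmap Z.E M.E f z v) := by
    intro z v
    rw [hγ z, ← dmap_I hf z v]
    rfl
  obtain ⟨e, he⟩ := exists_comb c γ 1 1
  have hev : ∀ z v, e.val z v (Complex.I • v) = c.val z v (Complex.I • v) +
      β.val (f z) (dmap Z.E M.E f z v) (Complex.I • dmap Z.E M.E f z v) := by
    intro z v
    rw [he z, ← hγv]
    simp
  refine ⟨e, fun z v => ?_, z0, fun v hD hv => ?_⟩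
  · rw [hev]
    exact add_nonneg (hc z v) (hβ _ _)
  · rw [hev]
    by_cases h0 : dmap Z.E M.E f z0 v = 0
    · have h1 : 0 < c.val z0 v (Complex.I • v) := hz0' v hD hv (by rw [dif_dmap hf]; exact h0)
      have h2 := hβ (f z0) (dmap Z.E M.E f z0 v)
      linarith
    · have h1 := hz0p _ h0
      have h2 : 0 ≤ c.val z0 v (Complex.I • v) := hc z0 v
      linarith

theorem thick_semi {Z M : CM.{u}} {f : Z.X → M.X} {β : Form M.E M.X} (hβ : β.Semi)
    (h : Thick Z M f (all Z) {x | β.PosAt x}) : SemiPos Z := by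
  obtain ⟨e, he, z, hz⟩ := thick_form hβ h
  exact ⟨e, he, z, fun v hv => hz v trivial hv⟩

/-- a fibre of `q : Z → S` inherits a good form, if `f : Z → M` is thick along the fibres -/
theorem fibre_semi {M Z S N : CM.{u}} {q : Z.X → S.X} {m : ℕ} (hq : Fibn Z S q m) {s : S.X}
    (hN : IsFibre Z S q s N) {f : Z.X → M.X} {β : Form M.E M.X} (hβ : β.Semi)
    (h : Thick Z M f (vert Z S q) {x | β.PosAt x}) : SemiPos N := by
  obtain ⟨γ, hγs, z0, hz0⟩ := thick_form hβ h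
  have hγp : VPos S.E q γ.val z0 := by
    intro v hv h0
    refine hz0 v ?_ hv
    show dif Z S q z0 v = 0
    rw [dif_dmap hq.hol]
    exact h0
  obtain ⟨x, hxs, hxp⟩ := FBN.fib_point_v (cmp_fibn hq) γ hγs z0 hγp s
  obtain ⟨i, ⟨hi, hr, hd⟩⟩ := hN
  have hc : ∀ y, q (i y) = s := by
    intro y
    have h : i y ∈ q ⁻¹' {s} := by
      rw [← hr]
      exact ⟨y, rfl⟩
    exact h
  have hvert : ∀ y w, dmap Z.E S.E q (i y) (dmap N.E Z.E i y w) = 0 := by
    intro y w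
    have h1 : MDifferentiableAt 𝓘(ℂ, N.E) 𝓘(ℂ, Z.E) i y := (hi.hol y).mdifferentiableAt (by simp)
    have h2 : MDifferentiableAt 𝓘(ℂ, Z.E) 𝓘(ℂ, S.E) q (i y) := (hq.hol (i y)).mdifferentiableAt (by simp)
    have h3 := mfderiv_comp y h2 h1
    have h4 : q ∘ i = fun _ => s := funext hc
    have h5 : (mfderiv 𝓘(ℂ, Z.E) 𝓘(ℂ, S.E) q (i y)).comp (mfderiv 𝓘(ℂ, N.E) 𝓘(ℂ, Z.E) i y) = 0 := by
      rw [← h3, h4]
      exact mfderiv_const
    rw [dmap_eq hq.hol, dmap_eq hi.hol]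
    exact DFunLike.congr_fun h5 w
  obtain ⟨θ, hθ⟩ := exists_comap γ hi.hol
  refine ⟨θ, ?_, ?_⟩
  · intro y v
    rw [hθ]
    show 0 ≤ γ.val (i y) (dmap N.E Z.E i y v) (dmap N.E Z.E i y (Complex.I • v))
    rw [dmap_I hi.hol]
    exact hγs _ _
  · have hmem : x ∈ Set.range i := by
      rw [hr]
      exact hxs
    obtain ⟨y, rfl⟩ := hmem
    refine ⟨y, fun v hv => ?_⟩
    rw [hθ]
    show 0 < γ.val (i y) (dmap N.E Z.E i y v) (dmap N.E Z.E i y (Complex.I • v))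
    rw [dmap_I hi.hol]
    refine hxp _ (fun h0 => hv ?_) (hvert y v)
    apply hi.imm y
    rw [dif_dmap hi.hol, dif_dmap hi.hol, h0, map_zero]

end Pool.Agent.FBU
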