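import Pool.Agent.FBU.Defs
import Pool.Agent.FBS.Up
import Pool.Agent.FBS.Down

/-!
# FBU/Cov: unramified coverings, upwards

PROOF PLAN.  `dmap_eq` (FBR) turns `dif` into `dmap` (`dif M N f x v` is by definition `mfderiv ... f x v`).
`cov_semi`: `exists_push` (FBS/Down) for the form `β` of `M'`: `≥ 0`, and positive definite at `p x` if `β` is positive definite at `x` (as in `cover_down`).
`cov_kaehler`: the pull back (`exists_comap`), as in `cover_up`.
-/

set_option autoImplicit false

noncomputable section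

open scoped Manifold ContDiff Topology

namespace Pool.Agent.FBU

open Pool.Agent.FBR

universe u

private theorem Cov_toCover {M' M : CM.{u}} {p : M'.X → M.X} (h : Cover M' M p) :
    FBR.Cover M'.E M.E p := ⟨h.hol, fun x => h.bij x, h.surj⟩

theorem cov_semi {M' M : CM.{u}} {p : M'.X → M.X} (h : Cover M' M p) (hM : SemiPos M') : SemiPos M := by
  have hp : FBR.Cover M'.E M.E p := Cov_toCover h
  obtain ⟨w, hw, x, hx⟩ := hM
  have hloc : ∀ x : M'.X, ∃ N ∈ 𝓝 x, Set.InjOn p N := fun x => FBS.loc_inj hp.hol (hp.bij x)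
  have hcont : Continuous p := hp.hol.continuous
  have hfin : ∀ b, (p ⁻¹' {b}).Finite := fun b => FBS.fin_fib hcont hloc b
  obtain ⟨b, hb⟩ := FBS.exists_push M' M p hp hfin w
  refine ⟨b, ?_, p x, ?_⟩
  · intro y v
    rw [hb, FBS.pushT_apply]
    apply Finset.sum_nonneg
    intro x' _
    have hbj := FBS.dmap_bij hp.hol (hp.bij x')
    rw [FBS.inverse_I hp.hol hbj]
    exact hw _ _
  · intro v hv
    rw [hb, FBS.pushT_apply]
    apply Finset.sum_pos'
    · intro x' _
      have hbj := FBS.dmap_bij hp.hol (hp.bij x')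
      rw [FBS.inverse_I hp.hol hbj]
      exact hw _ _
    · refine ⟨x, by simp, ?_⟩
      have hbj := FBS.dmap_bij hp.hol (hp.bij x)
      rw [FBS.inverse_I hp.hol hbj]
      apply hx
      intro h0
      apply hv
      rw [← FBS.dmap_inverse hbj v, h0, map_zero]

theorem cov_kaehler {M' M : CM.{u}} {p : M'.X → M.X} (h : Cover M' M p) (hM : Kaehler M) : Kaehler M' := by
  have hp : FBR.Cover M'.E M.E p := Cov_toCover h
  obtain ⟨w, hw⟩ := hM
  obtain ⟨c, hc⟩ := exists_comap w hp.hol
  refine ⟨c, fun x v hv => ?_⟩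
  rw [hc]
  simp only [ContinuousLinearMap.bilinearComp_apply]
  rw [dmap_I hp.hol]
  apply hw
  intro h0
  apply hv
  apply (FBS.dmap_bij hp.hol (hp.bij x)).1
  rw [h0, map_zero]

end Pool.Agent.FBU
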