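import Pool.Agent.FBR.Loc

/-!
# FBU: fibre spaces and forms on compact complex manifolds (definitions)

`CM` is the type of compact connected complex manifolds, `M.E` is the tangent space of `M` at any point (by means of
the preferred chart at the point).
-/

set_option autoImplicit false

noncomputable section

open scoped Manifold ContDiff

namespace Pool.Agent.FBU

open Pool.Agent.FBR

universe u

/-! ### Maps -/

/-- `f : M → N` is holomorphic. -/
def Holo (M N : CM.{u}) (f : M.X → N.X) : Prop := ContMDiff 𝓘(ℂ, M.E) 𝓘(ℂ, N.E) ω f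

/-- The differential of `f : M → N` at `x`. -/
def dif (M N : CM.{u}) (f : M.X → N.X) (x : M.X) (v : M.E) : N.E :=
  (mfderiv 𝓘(ℂ, M.E) 𝓘(ℂ, N.E) f x : M.E →L[ℂ] N.E) v

/-- The dimension of `M`. -/
def dim (M : CM.{u}) : ℕ := Module.finrank ℂ M.E

/-- `π : M → B` is a holomorphic submersion, all fibres of which are connected and of dimension `m`. -/
structure Fibn (M B : CM.{u}) (π : M.X → B.X) (m : ℕ) : Prop where
  hol : Holo M B π
  subm : ∀ x, Function.Surjective (dif M B π x)
  dim : dim M = dim B + m
  conn : ∀ b, IsConnected (π ⁻¹' {b})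

/-- `p` is a holomorphic finite unramified covering: a surjective local biholomorphism. -/
structure Cover (M' M : CM.{u}) (p : M'.X → M.X) : Prop where
  hol : Holo M' M p
  bij : ∀ x, Function.Bijective (dif M' M p x)
  surj : Function.Surjective p

/-- `i` is an injective holomorphic immersion. -/
structure Emb (N M : CM.{u}) (i : N.X → M.X) : Prop where
  hol : Holo N M i
  inj : Function.Injective i
  imm : ∀ y, Function.Injective (dif N M i y)

/-- `i` identifies `N` with the fibre over `b` of `π : M → B`. -/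
structure FibreMap (M B : CM.{u}) (π : M.X → B.X) (b : B.X) (N : CM.{u}) (i : N.X → M.X) : Prop where
  emb : Emb N M i
  range : Set.range i = π ⁻¹' {b}
  dim : dim M = dim B + dim N

/-- `N` is the fibre over `b` of `π : M → B`. -/
def IsFibre (M B : CM.{u}) (π : M.X → B.X) (b : B.X) (N : CM.{u}) : Prop :=
  ∃ i : N.X → M.X, FibreMap M B π b N i

/-- `M` is the product of `A` and `B`, with the projections `p` and `q`. -/
structure IsProd (M A B : CM.{u}) (p : M.X → A.X) (q : M.X → B.X) : Prop where
  holp : Holo M A p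
  holq : Holo M B q
  bij : Function.Bijective fun x => (p x, q x)
  dbij : ∀ x, Function.Bijective fun v => (dif M A p x v, dif M B q x v)

/-! ### Fibrations by complex tori -/

/-- `z` and `z'` are equal modulo the lattice generated by the vectors `lam j`. -/
def Congr (k : ℕ) (lam : Fin (2 * k) → (Fin k → ℂ)) (z z' : Fin k → ℂ) : Prop :=
  ∃ m : Fin (2 * k) → ℤ, z' = z + ∑ j, m j • lam j

/-- The `lam j` (`j < 2k`) are holomorphic functions on `V` with values in `ℂᵏ`; at every point of `V` the values are
linearly independent over the reals, so they generate a lattice. -/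
structure Lattices (F : Type u) [NormedAddCommGroup F] [NormedSpace ℂ F] (k : ℕ) (V : Set F)
    (lam : Fin (2 * k) → F → (Fin k → ℂ)) : Prop where
  hol : ∀ j, ContDiffOn ℂ ω (lam j) V
  indep : ∀ y ∈ V, LinearIndependent ℝ fun j => lam j y

/-- `Φ : O → M` is holomorphic and locally biholomorphic. -/
structure LocBihol (G : Type u) [NormedAddCommGroup G] [NormedSpace ℂ G] (M : CM.{u}) (O : Set G)
    (Φ : G → M.X) : Prop where
  hol : ContMDiffOn 𝓘(ℂ, G) 𝓘(ℂ, M.E) ω Φ O
  bij : ∀ q ∈ O, Function.Bijective (mfderiv 𝓘(ℂ, G) 𝓘(ℂ, M.E) Φ q : G →L[ℂ] M.E)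

/-- `Φ : V × ℂᵏ → M` identifies the part of `M` over the open set `V` of the chart of `B` at `b₀`
with the quotient of `V × ℂᵏ` by the lattices generated by `lam j y`, `j < 2k`. -/
structure TorusChart (M B : CM.{u}) (π : M.X → B.X) (k : ℕ) (b₀ : B.X) where
  V : Set B.E
  lam : Fin (2 * k) → B.E → (Fin k → ℂ)
  Φ : B.E × (Fin k → ℂ) → M.X
  isOpen : IsOpen V
  sub : V ⊆ (chartAt B.E b₀).target
  mem : chartAt B.E b₀ b₀ ∈ V
  lat : Lattices B.E k V lam
  bihol : LocBihol (B.E × (Fin k → ℂ)) M (V ×ˢ Set.univ) Φ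
  proj : ∀ y ∈ V, ∀ z, π (Φ (y, z)) = (chartAt B.E b₀).symm y
  surj : ∀ x, π x ∈ (chartAt B.E b₀).source → chartAt B.E b₀ (π x) ∈ V →
    ∃ z, Φ (chartAt B.E b₀ (π x), z) = x
  ker : ∀ y ∈ V, ∀ z z', Φ (y, z) = Φ (y, z') ↔ Congr k (fun j => lam j y) z z'

/-- `π : M → B` is a holomorphic fibration by complex tori of dimension `k`. -/
def TorusFib (M B : CM.{u}) (π : M.X → B.X) (k : ℕ) : Prop :=
  Holo M B π ∧ ∀ b₀ : B.X, Nonempty (TorusChart M B π k b₀)

/-! ### Forms -/

/-- The value of the form `a` at `(v, iv)`. -/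
def herm {E : Type u} [NormedAddCommGroup E] [NormedSpace ℂ E] (a : Bil E) (v : E) : ℝ := a v (Complex.I • v)

/-- The second derivative of `f` at `y` in the direction `v`. -/
def sec {E : Type u} [NormedAddCommGroup E] [NormedSpace ℂ E] (f : E → ℝ) (y v : E) : ℝ :=
  deriv (deriv fun t : ℝ => f (y + (t : ℂ) • v)) 0

/-- `φ : N → ℝ` is smooth. -/
def Smooth (N : CM.{u}) (φ : N.X → ℝ) : Prop :=
  ∀ x, ContDiffAt ℝ ∞ (φ ∘ (chartAt N.E x).symm) (chartAt N.E x x)

/-- The second derivative of `φ : N → ℝ` at `x` in the direction `v`, in the preferred chart at `x`. -/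
def hess (N : CM.{u}) (φ : N.X → ℝ) (x : N.X) (v : N.E) : ℝ :=
  sec (φ ∘ (chartAt N.E x).symm) (chartAt N.E x x) v

/-- The value at `(v, iv)` of the closed `(1,1)`-form `dd^c φ` (the Levi form of `φ`). -/
def levi (N : CM.{u}) (φ : N.X → ℝ) (x : N.X) (v : N.E) : ℝ :=
  (hess N φ x v + hess N φ x (Complex.I • v)) / 2

/-- The restriction of the closed `(1,1)`-form `θ` on `M` to each fibre `N` of `π : M → B` is cohomologous to a Kaehler form:
`θ|N + dd^c φ` is positive definite for some smooth `φ : N → ℝ`. -/
def FibKaehler (M B : CM.{u}) (π : M.X → B.X) (θ : Form M.E M.X) : Prop :=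
  ∀ b, ∃ (N : CM.{u}) (i : N.X → M.X) (φ : N.X → ℝ), FibreMap M B π b N i ∧ Smooth N φ ∧
    ∀ (y : N.X) (v : N.E), v ≠ 0 → 0 < herm (θ.val (i y)) (dif N M i y v) + levi N φ y v

/-- For every closed `(1,1)`-form `θ ≥ 0` on `N` which is positive definite at some point there is a smooth function `φ`
such that `θ + dd^c φ` is positive definite everywhere. -/
def KProp (N : CM.{u}) : Prop :=
  ∀ θ : Form N.E N.X, θ.Semi → (∃ y, θ.PosAt y) → ∃ φ : N.X → ℝ, Smooth N φ ∧
    ∀ (y : N.X) (v : N.E), v ≠ 0 → 0 < herm (θ.val y) v + levi N φ y v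

/-- If the open set `U` meets all fibres of `π : M → B` and `x` is a point of `M`, then there is a holomorphic map
`f : M → M` which maps fibres into fibres (it covers a holomorphic map `g : B → B`), such that `f x ∈ U` and `f` is
immersive along the fibre at `x`.  (For example, if the holomorphic maps of `M` over `B` are transitive, or have dense orbits,
on the fibres.) -/
def FibHom (M B : CM.{u}) (π : M.X → B.X) : Prop :=
  ∀ (U : Set M.X) (x : M.X), IsOpen U → (∀ b, ∃ y ∈ U, π y = b) → ∃ (f : M.X → M.X) (g : B.X → B.X),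
    Holo M M f ∧ Holo B B g ∧ (∀ z, π (f z) = g (π z)) ∧ f x ∈ U ∧
      ∀ v : M.E, v ≠ 0 → dif M B π x v = 0 → dif M M f x v ≠ 0

/-- The holomorphic map `f : Z → M` is thick over `U` in the directions `D`: there are a closed `(1,1)`-form `c ≥ 0` on `Z`
and a point `z` with `f z ∈ U`, such that `c` is positive on the nonzero vectors in `D z` which the differential of `f` maps to
zero (for example `c = 0`, if the differential is injective on `D z`). -/
def Thick (Z M : CM.{u}) (f : Z.X → M.X) (D : Z.X → Set Z.E) (U : Set M.X) : Prop :=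
  Holo Z M f ∧ ∃ c : Form Z.E Z.X, c.Semi ∧ ∃ z, f z ∈ U ∧
    ∀ v ∈ D z, v ≠ 0 → dif Z M f z v = 0 → 0 < herm (c.val z) v

/-- the tangent vectors of the fibres of `q : Z → S` -/
def vert (Z S : CM.{u}) (q : Z.X → S.X) (z : Z.X) : Set Z.E := {v | dif Z S q z v = 0}

/-- all tangent vectors of `Z` -/
def all (Z : CM.{u}) (_ : Z.X) : Set Z.E := Set.univ

/-! ### Permanence -/

/-- `M` has the base of every holomorphic submersion with connected fibres, the manifolds `N` with a thick map to `M`, and
the fibres of the fibrations `q : Z → S`, `Z` with a map to `M` which is thick along the fibres, in the class `SemiPos`. -/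
structure Perm (M : CM.{u}) : Prop where
  base : ∀ (B : CM.{u}) (π : M.X → B.X) (m : ℕ), Fibn M B π m → SemiPos B
  thick : ∃ U : Set M.X, IsOpen U ∧ U.Nonempty ∧
    (∀ (N : CM.{u}) (f : N.X → M.X), Thick N M f (all N) U → SemiPos N) ∧
    ∀ (Z S N : CM.{u}) (q : Z.X → S.X) (m : ℕ) (f : Z.X → M.X) (s : S.X), Fibn Z S q m →
      Thick Z M f (vert Z S q) U → IsFibre Z S q s N → SemiPos N

/-! ### The class `T` -/

/-- The condition on a holomorphic submersion `π : M → B` with connected fibres of dimension `m`: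
the fibres are curves; or complex tori; or there is a closed `(1,1)`-form on `M` the restriction of which to every fibre
is cohomologous to a Kaehler form; or the fibres have the property `KProp`; or the holomorphic maps of `M` which map fibres
into fibres move every point into every open set which meets all fibres (`FibHom`). -/
def GoodFib (M B : CM.{u}) (π : M.X → B.X) (m : ℕ) : Prop :=
  m = 1 ∨ TorusFib M B π m ∨ (∃ θ : Form M.E M.X, FibKaehler M B π θ) ∨
    (∀ b, ∃ N, IsFibre M B π b N ∧ KProp N) ∨ FibHom M B π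

/-- The smallest class of compact connected complex manifolds which contains the manifolds `M` for which
`SemiPos M → C M` is true and is closed under the rules given by the other constructors. -/
inductive Tow (C : CM.{u} → Prop) : CM.{u} → Prop
  | base (M : CM.{u}) : (SemiPos M → C M) → Tow C M
  | fib (M B : CM.{u}) (π : M.X → B.X) (m : ℕ) : Fibn M B π m → GoodFib M B π m → Tow C B → Tow C M
  | prod (M A B : CM.{u}) (p : M.X → A.X) (q : M.X → B.X) : IsProd M A B p q → Tow C A → Tow C B → Tow C M
  | image (M' M : CM.{u}) (f : M'.X → M.X) : Holo M' M f → Function.Surjective f → dim M' = dim M →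
      (C M' → C M) → Tow C M' → Tow C M
  | down (M' M : CM.{u}) (f : M'.X → M.X) : (∀ U, IsOpen U → U.Nonempty → Thick M' M f (all M') U) →
      (C M' → C M) → Tow C M' → Tow C M
  | quot (M' M : CM.{u}) (p : M'.X → M.X) : Cover M' M p → Tow C M' → Tow C M
  | cover (M' M : CM.{u}) (p : M'.X → M.X) : Cover M' M p → (C M → C M') → Tow C M → Tow C M'

end Pool.Agent.FBU
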