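import Pool.Agent.FBU.Defs
import Pool.Agent.FBN.BStep
import Pool.Agent.FBP.Main

/-!
# FBU/Prd: products

`M` is the product of `A` and `B` with the projections `p`, `q`.  The fibres of `p` are the images of `B` under the inverse of the
continuous bijection `(p, q)`, hence connected, so `p` and `q` are smooth fibrations (`Prd_left`, `Prd_right`) and `base_semiPos`
gives `prod_semi`.  `prod_kaehler`: the sum of the pull backs of two Kaehler forms (`Prd_sum`).  `prod_fujiki`: the fibre product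
`P` of `p` and `Z_A → A` is a smooth fibration over `B`; the fibre product `P'` of `P → B` and `Z_B → B` is Kaehler (sum of the
two pull backs) and maps onto `M`.
-/

set_option autoImplicit false

noncomputable section

open scoped Manifold ContDiff Topology

namespace Pool.Agent.FBU

open Pool.Agent.FBR

universe u

/-- a closed subset of a compact space which is mapped bijectively onto a connected Hausdorff space is connected -/
private theorem Prd_conn {X Y : Type*} [TopologicalSpace X] [TopologicalSpace Y] [CompactSpace X] [T2Space Y]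
    [ConnectedSpace Y] {C : Set X} (hC : IsClosed C) {h : X → Y} (hh : Continuous h) (hi : Set.InjOn h C)
    (hs : ∀ y, ∃ x ∈ C, h x = y) : IsConnected C := by
  have : CompactSpace C := isCompact_iff_compactSpace.1 hC.isCompact
  have hbij : Function.Bijective (fun c : C => h c) :=
    ⟨fun c c' e => Subtype.ext (hi c.2 c'.2 e), fun y => by
      obtain ⟨x, hx, e⟩ := hs y
      exact ⟨⟨x, hx⟩, e⟩⟩
  let e : C ≃ Y := Equiv.ofBijective _ hbij
  have he : Continuous e := hh.comp continuous_subtype_val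
  let H : C ≃ₜ Y := he.homeoOfEquivCompactToT2
  have : ConnectedSpace C := H.symm.surjective.connectedSpace H.symm.continuous
  exact isConnected_iff_connectedSpace.2 this

private theorem Prd_dif_comp {M N K : CM.{u}} {f : M.X → N.X} {g : N.X → K.X} (hf : Holo M N f)
    (hg : Holo N K g) (x : M.X) (v : M.E) : dif M K (g ∘ f) x v = dif N K g (f x) (dif M N f x v) := by
  have h1 : MDifferentiableAt 𝓘(ℂ, M.E) 𝓘(ℂ, N.E) f x := (hf x).mdifferentiableAt (by simp)
  have h2 : MDifferentiableAt 𝓘(ℂ, N.E) 𝓘(ℂ, K.E) g (f x) := (hg (f x)).mdifferentiableAt (by simp)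
  have h3 := mfderiv_comp x h2 h1
  unfold dif
  rw [h3]
  rfl

private theorem Prd_dif_zero {M N : CM.{u}} (f : M.X → N.X) (x : M.X) : dif M N f x 0 = 0 := map_zero _

private theorem Prd_dif_eq {M N : CM.{u}} {f : M.X → N.X} (hf : Holo M N f) (x : M.X) (v : M.E) :
    dif M N f x v = dmap M.E N.E f x v := (dmap_eq hf x v).symm

/-- the sum of the pull backs of two positive forms -/
private theorem Prd_sum {P A B : CM.{u}} {a : P.X → A.X} {b : P.X → B.X} (ha : Holo P A a) (hb : Holo P B b)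
    (hi : ∀ x v, dif P A a x v = 0 → dif P B b x v = 0 → v = 0) (hA : Kaehler A) (hB : Kaehler B) :
    Kaehler P := by
  obtain ⟨w, hw⟩ := hA
  obtain ⟨w', hw'⟩ := hB
  obtain ⟨c, hc⟩ := exists_comap w ha
  obtain ⟨c', hc'⟩ := exists_comap w' hb
  obtain ⟨d, hd⟩ := exists_comb c c' 1 1
  refine ⟨d, fun x v hv => ?_⟩
  have e : d.val x v (Complex.I • v) =
      w.val (a x) (dmap P.E A.E a x v) (Complex.I • dmap P.E A.E a x v) +
      w'.val (b x) (dmap P.E B.E b x v) (Complex.I • dmap P.E B.E b x v) := by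
    rw [hd]
    simp only [one_smul]
    show c.val x v (Complex.I • v) + c'.val x v (Complex.I • v) = _
    rw [hc, hc']
    simp only [ContinuousLinearMap.bilinearComp_apply]
    rw [dmap_I ha, dmap_I hb]
  rw [e]
  have n1 : ∀ u : A.E, 0 ≤ w.val (a x) u (Complex.I • u) := by
    intro u
    by_cases hu : u = 0
    · rw [hu]
      simp
    · exact (hw (a x) u hu).le
  have n2 : ∀ u : B.E, 0 ≤ w'.val (b x) u (Complex.I • u) := by
    intro u
    by_cases hu : u = 0
    · rw [hu]
      simp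
    · exact (hw' (b x) u hu).le
  by_cases h1 : dmap P.E A.E a x v = 0
  · have h2 : dmap P.E B.E b x v ≠ 0 := by
      intro h2
      apply hv
      apply hi x v
      · rw [Prd_dif_eq ha]; exact h1
      · rw [Prd_dif_eq hb]; exact h2
    exact add_pos_of_nonneg_of_pos (n1 _) (hw' (b x) _ h2)
  · exact add_pos_of_pos_of_nonneg (hw (a x) _ h1) (n2 _)

private theorem Prd_swap {M A B : CM.{u}} {p : M.X → A.X} {q : M.X → B.X} (h : IsProd M A B p q) :
    IsProd M B A q p where
  holp := h.holq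
  holq := h.holp
  bij := by
    have h1 : (fun x => (q x, p x)) = Prod.swap ∘ fun x => (p x, q x) := rfl
    rw [h1]
    exact Prod.swap_bijective.comp h.bij
  dbij := by
    intro x
    have h1 : (fun v => (dif M B q x v, dif M A p x v)) = Prod.swap ∘ fun v => (dif M A p x v, dif M B q x v) := rfl
    rw [h1]
    exact Prod.swap_bijective.comp (h.dbij x)

private theorem Prd_dim {M A B : CM.{u}} {p : M.X → A.X} {q : M.X → B.X} (h : IsProd M A B p q) :
    Module.finrank ℂ M.E = Module.finrank ℂ A.E + Module.finrank ℂ B.E := by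
  obtain ⟨x⟩ : Nonempty M.X := inferInstance
  let L : M.E →ₗ[ℂ] A.E × B.E :=
    LinearMap.prod (mfderiv 𝓘(ℂ, M.E) 𝓘(ℂ, A.E) p x : M.E →L[ℂ] A.E).toLinearMap
      (mfderiv 𝓘(ℂ, M.E) 𝓘(ℂ, B.E) q x : M.E →L[ℂ] B.E).toLinearMap
  have hL : Function.Bijective L := h.dbij x
  have h1 := (LinearEquiv.ofBijective L hL).finrank_eq
  rw [h1, Module.finrank_prod]

private theorem Prd_left {M A B : CM.{u}} {p : M.X → A.X} {q : M.X → B.X} (h : IsProd M A B p q) :
    FBN.Fibn M.E A.E p (Module.finrank ℂ B.E) where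
  hol := h.holp
  subm := by
    intro x u
    obtain ⟨v, hv⟩ := (h.dbij x).2 (u, 0)
    exact ⟨v, congrArg Prod.fst hv⟩
  dim := Prd_dim h
  conn := by
    intro a
    refine Prd_conn (isClosed_singleton.preimage h.holp.continuous) h.holq.continuous ?_ ?_
    · intro x hx y hy hxy
      have hx' : p x = a := hx
      have hy' : p y = a := hy
      exact h.bij.1 (Prod.ext (hx'.trans hy'.symm) hxy)
    · intro b
      obtain ⟨x, hx⟩ := h.bij.2 (a, b)
      exact ⟨x, congrArg Prod.fst hx, congrArg Prod.snd hx⟩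

theorem prod_semi {M A B : CM.{u}} {p : M.X → A.X} {q : M.X → B.X} (h : IsProd M A B p q) (hM : SemiPos M) :
    SemiPos A ∧ SemiPos B :=
  ⟨FBN.base_semiPos M A p _ (Prd_left h) hM, FBN.base_semiPos M B q _ (Prd_left (Prd_swap h)) hM⟩

theorem prod_kaehler {M A B : CM.{u}} {p : M.X → A.X} {q : M.X → B.X} (h : IsProd M A B p q)
    (hA : Kaehler A) (hB : Kaehler B) : Kaehler M := by
  refine Prd_sum h.holp h.holq ?_ hA hB
  intro x v h1 h2
  apply (h.dbij x).1
  show (dif M A p x v, dif M B q x v) = (dif M A p x 0, dif M B q x 0)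
  rw [h1, h2, Prd_dif_zero, Prd_dif_zero]

/-- the fibre product, with its dimension and the uniqueness of its points -/
private theorem Prd_fp (M B Z : CM.{u}) (π : M.X → B.X) (m : ℕ) (hπ : FBN.Fibn M.E B.E π m)
    (f : Z.X → B.X) (hf : ContMDiff 𝓘(ℂ, Z.E) 𝓘(ℂ, B.E) ω f) :
    ∃ (P : CM.{u}) (p : P.X → M.X) (r : P.X → Z.X), ContMDiff 𝓘(ℂ, P.E) 𝓘(ℂ, M.E) ω p ∧
      ContMDiff 𝓘(ℂ, P.E) 𝓘(ℂ, Z.E) ω r ∧ (∀ x, π (p x) = f (r x)) ∧
      (∀ a z, π a = f z → ∃ x, p x = a ∧ r x = z) ∧
      (∀ x (v : P.E), dmap P.E M.E p x v = 0 → dmap P.E Z.E r x v = 0 → v = 0) ∧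
      (∀ x y, p x = p y → r x = r y → x = y) ∧
      Module.finrank ℂ P.E = Module.finrank ℂ Z.E + m := by
  let c := FBP.cs hπ hf
  have := FBP.man hπ hf
  have : CompactSpace (FBP.FP π f) := FBP.FP.compact hπ.hol.continuous hf.continuous
  have : ConnectedSpace (FBP.FP π f) := FBP.FP.connected hπ.hol.continuous hf.continuous hπ.conn
  have hp : ContMDiff 𝓘(ℂ, Z.E × (Fin m → ℂ)) 𝓘(ℂ, M.E) ω (FBP.FP.fst : FBP.FP π f → M.X) :=
    FBP.contMDiff_of_hol fun p y hy => (FBP.fst_hol hπ hf p hy).1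
  have hr : ContMDiff 𝓘(ℂ, Z.E × (Fin m → ℂ)) 𝓘(ℂ, Z.E) ω (FBP.FP.snd : FBP.FP π f → Z.X) :=
    FBP.contMDiff_of_hol fun p y hy => (FBP.snd_hol hπ hf p hy).1
  refine ⟨{ E := Z.E × (Fin m → ℂ), X := FBP.FP π f }, FBP.FP.fst, FBP.FP.snd, hp, hr, fun x => x.eq,
    fun a z h => ⟨FBP.FP.mk a z h, rfl, rfl⟩, ?_, fun x y h1 h2 => FBP.FP.ext h1 h2, ?_⟩
  · intro x v h1 h2
    have hy : (chartAt (Z.E × (Fin m → ℂ)) x) x ∈ (FBP.ph hπ hf x).target :=
      (FBP.ph hπ hf x).map_source (FBP.ph_mem hπ hf x)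
    have h3 : dmap (Z.E × (Fin m → ℂ)) M.E (FBP.FP.fst : FBP.FP π f → M.X) x v = 0 := h1
    have h4 : dmap (Z.E × (Fin m → ℂ)) Z.E (FBP.FP.snd : FBP.FP π f → Z.X) x v = 0 := h2
    rw [FBP.dmap_par] at h3 h4
    exact FBP.inj_loc hπ hf x hy v h3 h4
  · show Module.finrank ℂ (Z.E × (Fin m → ℂ)) = _
    rw [Module.finrank_prod, Module.finrank_fin_fun]

theorem prod_fujiki {M A B : CM.{u}} {p : M.X → A.X} {q : M.X → B.X} (h : IsProd M A B p q)
    (hA : Fujiki A) (hB : Fujiki B) : Fujiki M := by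
  obtain ⟨Z, f, hZ, hf, hfs⟩ := hA
  obtain ⟨W, g, hW, hg, hgs⟩ := hB
  have hp := Prd_left h
  obtain ⟨P, s, r, hs, hr, hsr, hex, hinj, huniq, hdim⟩ := Prd_fp M A Z p _ hp f hf
  have hs' : Holo P M s := hs
  have hr' : Holo P Z r := hr
  have hf' : Holo Z A f := hf
  have hg' : Holo W B g := hg
  have hπ : Holo P B (q ∘ s) := h.holq.comp hs
  -- the joint differential of `r` and `q ∘ s`
  have hker : ∀ (x : P.X) (v : P.E), dif P Z r x v = 0 → dif P B (q ∘ s) x v = 0 → v = 0 := by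
    intro x v h1 h2
    have h3 : dif M B q (s x) (dif P M s x v) = 0 := by rw [← Prd_dif_comp hs' h.holq]; exact h2
    have h4 : dif M A p (s x) (dif P M s x v) = 0 := by
      rw [← Prd_dif_comp hs' h.holp]
      have e : p ∘ s = f ∘ r := funext hsr
      rw [e, Prd_dif_comp hr' hf', h1, Prd_dif_zero]
    have h5 : dif P M s x v = 0 := by
      apply (h.dbij (s x)).1
      show (dif M A p (s x) (dif P M s x v), dif M B q (s x) (dif P M s x v)) =
        (dif M A p (s x) 0, dif M B q (s x) 0)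
      rw [h3, h4, Prd_dif_zero, Prd_dif_zero]
    apply hinj x v
    · rw [← Prd_dif_eq hs']; exact h5
    · rw [← Prd_dif_eq hr']; exact h1
  have hF : FBN.Fibn P.E B.E (q ∘ s) (Module.finrank ℂ Z.E) := by
    refine ⟨hπ, ?_, ?_, ?_⟩
    · intro x u
      let L : P.E →ₗ[ℂ] Z.E × B.E :=
        LinearMap.prod (mfderiv 𝓘(ℂ, P.E) 𝓘(ℂ, Z.E) r x : P.E →L[ℂ] Z.E).toLinearMap
          (mfderiv 𝓘(ℂ, P.E) 𝓘(ℂ, B.E) (q ∘ s) x : P.E →L[ℂ] B.E).toLinearMap
      have hL : Function.Injective L := by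
        rw [injective_iff_map_eq_zero]
        intro v hv
        exact hker x v (congrArg Prod.fst hv) (congrArg Prod.snd hv)
      have hd : Module.finrank ℂ P.E = Module.finrank ℂ (Z.E × B.E) := by
        rw [hdim, Module.finrank_prod]
      obtain ⟨v, hv⟩ := (LinearMap.injective_iff_surjective_of_finrank_eq_finrank hd).1 hL (0, u)
      exact ⟨v, congrArg Prod.snd hv⟩
    · rw [hdim, add_comm]
    · intro b
      refine Prd_conn (isClosed_singleton.preimage hπ.continuous) hr.continuous ?_ ?_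
      · intro x hx y hy hxy
        have hx' : q (s x) = b := hx
        have hy' : q (s y) = b := hy
        refine huniq x y (h.bij.1 (Prod.ext ?_ (hx'.trans hy'.symm))) hxy
        show p (s x) = p (s y)
        rw [hsr, hsr, hxy]
      · intro z
        obtain ⟨y, hy⟩ := h.bij.2 (f z, b)
        obtain ⟨x, hx1, hx2⟩ := hex y z (congrArg Prod.fst hy)
        refine ⟨x, ?_, hx2⟩
        show q (s x) = b
        rw [hx1]
        exact congrArg Prod.snd hy
  obtain ⟨P', s', r', hs1, hr1, hsr1, hex1, hinj1, -, -⟩ := Prd_fp P B W (q ∘ s) _ hF g hg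
  have hs1' : Holo P' P s' := hs1
  have hr1' : Holo P' W r' := hr1
  refine ⟨P', s ∘ s', ?_, hs.comp hs1, ?_⟩
  · refine Prd_sum (a := r ∘ s') (b := r') (hr.comp hs1) hr1 ?_ hZ hW
    intro x v h1 h2
    have h3 : dif P Z r (s' x) (dif P' P s' x v) = 0 := by rw [← Prd_dif_comp hs1' hr']; exact h1
    have h4 : dif P B (q ∘ s) (s' x) (dif P' P s' x v) = 0 := by
      rw [← Prd_dif_comp hs1' hπ]
      have e : (q ∘ s) ∘ s' = g ∘ r' := funext hsr1
      rw [e, Prd_dif_comp hr1' hg', h2, Prd_dif_zero]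
    have h5 := hker _ _ h3 h4
    apply hinj1 x v
    · rw [← Prd_dif_eq hs1']; exact h5
    · rw [← Prd_dif_eq hr1']; exact h2
  · intro y
    obtain ⟨z, hz⟩ := hfs (p y)
    obtain ⟨x, hx1, hx2⟩ := hex y z hz.symm
    obtain ⟨w, hw⟩ := hgs (q y)
    obtain ⟨x', hx1', -⟩ := hex1 x w (by rw [Function.comp_apply, hx1, hw])
    exact ⟨x', by rw [Function.comp_apply, hx1', hx1]⟩

end Pool.Agent.FBU
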