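import Pool.Agent.FBU.Cmp
import Pool.Agent.FBU.Hom
import Pool.Agent.FBU.Cls
import Pool.Agent.FBU.Prd
import Pool.Agent.FBU.Cov
import Pool.Agent.FBN.Main
import Pool.Agent.FBN.TorV
import Pool.Agent.FBP.Main

/-!
# FBU/Main: the induction
-/

set_option autoImplicit false

noncomputable section

open scoped Manifold ContDiff Classical

namespace Pool.Agent.FBU

open Pool.Agent.FBR

universe u

/-- a form which is positive on the fibres -/
theorem good_vpos (M B : CM.{u}) (π : M.X → B.X) (m : ℕ) (hπ : Fibn M B π m) (hg : GoodFib M B π m)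
    (h : SemiPos M) :
    ∃ c : Form M.E M.X, ∀ x v, v ≠ 0 → dmap M.E B.E π x v = 0 → 0 < c.val x v (Complex.I • v) := by
  have hπ' := cmp_fibn hπ
  rcases hg with h1 | ht | ⟨θ, hθ⟩ | hk | hf
  · exact FBN.good_vpos FBN.torus_vpos M B π m hπ' (Or.inl h1) h
  · exact FBN.torus_vpos M B π m (cmp_torus ht) h
  · exact cls_vpos hπ θ hθ
  · exact FBN.k_vpos M B π m hπ' h fun b => by
      obtain ⟨N, hN, hK⟩ := hk b
      exact cmp_kFib hπ hN hK
  · exact dense_vpos M B π m hπ' h hf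

theorem perm_main (M : CM.{u}) (h : SemiPos M) : Perm M := by
  refine ⟨fun B π m hπ => FBN.base_semiPos M B π m (cmp_fibn hπ) h, ?_⟩
  obtain ⟨b, hb, x, hx⟩ := h
  exact ⟨{x | b.PosAt x}, FBS.isOpen_pos M b, ⟨x, hx⟩, fun N f hf => thick_semi hb hf,
    fun Z S N q m f s hq hf hN => fibre_semi hq hN hb hf⟩

theorem tow_main (C : CM.{u} → Prop) (hC : C = Fujiki ∨ C = Kaehler) (M : CM.{u}) (hM : Tow C M)
    (h : SemiPos M) : C M := by
  induction hM with
  | base M hK => exact hK h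
  | fib M B π m hπ hg hB ih =>
    obtain ⟨c, hc⟩ := good_vpos M B π m hπ hg h
    have hBC := ih (FBN.base_semiPos M B π m (cmp_fibn hπ) h)
    rcases hC with rfl | rfl
    · exact FBP.total_fujiki M B π m (cmp_fibn hπ) c hc hBC
    · exact fib_pos M B π hπ.hol c hc hBC
  | prod M A B p q hp hA hB ihA ihB =>
    obtain ⟨hsA, hsB⟩ := prod_semi hp h
    rcases hC with rfl | rfl
    · exact prod_fujiki hp (ihA hsA) (ihB hsB)
    · exact prod_kaehler hp (ihA hsA) (ihB hsB)
  | image M' M f hf hs hd hC' hM' ih => exact hC' (ih (FBS.dom_up M' M f hf hs hd h))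
  | down M' M f ha hC' hM' ih =>
    obtain ⟨b, hb, x, hx⟩ := h
    exact hC' (ih (thick_semi hb (ha _ (FBS.isOpen_pos M b) ⟨x, hx⟩)))
  | quot M' M p hp hM' ih =>
    have h' := ih (FBS.cover_up M' M p (cmp_cover hp) h)
    rcases hC with rfl | rfl
    · obtain ⟨Z, f, hZ, hf, hs⟩ := h'
      exact ⟨Z, p ∘ f, hZ, hp.hol.comp hf, hp.surj.comp hs⟩
    · exact FBS.cover_down M' M p (cmp_cover hp) h'
  | cover M' M p hp hC' hM ih => exact hC' (ih (cov_semi hp h))

end Pool.Agent.FBU
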